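import Mathlib
import Pool.Graph.R_pool_sql_team_seeded_620a6dc7.H602PD.Main

set_option autoImplicit false

open Filter Topology

namespace Pool.Agent.KS6_31.FK

universe u

open Pool.Agent

theorem simul {ι : Type} [Fintype ι] (w : ι → ℝ) (δ : ℝ) (hδ : 0 < δ) (N0 : ℕ) :
    ∃ q : ℕ, N0 ≤ q ∧ ∀ i, |(q : ℝ) * w i - round ((q : ℝ) * w i)| < δ := by
  set x : ι → UnitAddCircle := fun i => ((w i : ℝ) : UnitAddCircle) with hx
  have h1 : MapClusterPt (0 : ι → UnitAddCircle) atTop (fun n : ℕ => n • x) :=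
    mapClusterPt_zero_atTop_nsmul x
  have h2 : {y : ι → UnitAddCircle | ∀ i, ‖y i‖ < δ} ∈ 𝓝 (0 : ι → UnitAddCircle) := by
    have h3 : IsOpen {y : ι → UnitAddCircle | ∀ i, ‖y i‖ < δ} := by
      have h4 : {y : ι → UnitAddCircle | ∀ i, ‖y i‖ < δ} =
          ⋂ i, {y : ι → UnitAddCircle | ‖y i‖ < δ} := by
        ext y; simp
      rw [h4]
      refine isOpen_iInter_of_finite (fun i => ?_)
      exact isOpen_lt (by fun_prop) continuous_const
    exact h3.mem_nhds (by simp [hδ])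
  have h5 := h1.frequently h2
  obtain ⟨q, hq, hq2⟩ := (h5.and_eventually (eventually_ge_atTop N0)).exists
  refine ⟨q, hq2, fun i => ?_⟩
  have h6 : ‖(q • x) i‖ < δ := hq i
  have h7 : (q • x) i = (((q : ℝ) * w i : ℝ) : UnitAddCircle) := by
    simp [hx]
  rw [h7, UnitAddCircle.norm_eq] at h6
  exact h6

theorem intw {ι : Type} [Fintype ι] (w : ι → ℝ) (hw : ∀ i, 0 < w i) :
    ∃ n : ι → ℕ, (∀ i, 0 < n i) ∧ ∀ K K' : Finset ι, ∑ i ∈ K, w i ≤ ∑ i ∈ K', w i →
      ∑ i ∈ K, n i ≤ ∑ i ∈ K', n i := by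
  classical
  set c : ℝ := (Fintype.card ι : ℝ) with hc
  have hc0 : 0 ≤ c := by positivity
  obtain ⟨q, hq, hq2⟩ := simul w (1 / (2 * (c + 1))) (by positivity) (∑ i, ⌈1 / w i⌉₊)
  have hle : 1 / (2 * (c + 1)) ≤ 1 / 2 := by
    apply one_div_le_one_div_of_le (by norm_num)
    linarith
  have hqw : ∀ i, 1 ≤ (q : ℝ) * w i := by
    intro i
    have h1 : ⌈1 / w i⌉₊ ≤ ∑ i, ⌈1 / w i⌉₊ :=
      Finset.single_le_sum (f := fun i => ⌈1 / w i⌉₊) (fun _ _ => Nat.zero_le _) (Finset.mem_univ i)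
    have h2 : (1 / w i : ℝ) ≤ q := (Nat.le_ceil _).trans (by exact_mod_cast h1.trans hq)
    rwa [div_le_iff₀ (hw i)] at h2
  have hpos : ∀ i, 0 < round ((q : ℝ) * w i) := by
    intro i
    have h1 := hq2 i
    have h2 := abs_lt.1 (h1.trans_le hle)
    have h3 : (0 : ℝ) < (round ((q : ℝ) * w i) : ℝ) := by
      have := hqw i
      linarith [h2.2]
    exact_mod_cast h3
  refine ⟨fun i => (round ((q : ℝ) * w i)).toNat, fun i => ?_, fun K K' hK => ?_⟩
  · have := hpos i
    show 0 < (round ((q : ℝ) * w i)).toNat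
    omega
  · have hcast : ∀ K : Finset ι, ((∑ i ∈ K, (round ((q : ℝ) * w i)).toNat : ℕ) : ℝ) =
        ∑ i ∈ K, ((round ((q : ℝ) * w i) : ℤ) : ℝ) := by
      intro K
      push_cast
      refine Finset.sum_congr rfl (fun i _ => ?_)
      have := Int.toNat_of_nonneg (hpos i).le
      exact_mod_cast this
    have herr : ∀ K : Finset ι, |(q : ℝ) * ∑ i ∈ K, w i - ∑ i ∈ K, ((round ((q : ℝ) * w i) : ℤ) : ℝ)|
        ≤ c * (1 / (2 * (c + 1))) := by
      intro K
      rw [Finset.mul_sum, ← Finset.sum_sub_distrib]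
      refine (Finset.abs_sum_le_sum_abs _ _).trans ?_
      refine (Finset.sum_le_sum (fun i _ => (hq2 i).le)).trans ?_
      rw [Finset.sum_const, nsmul_eq_mul]
      refine mul_le_mul_of_nonneg_right ?_ (by positivity)
      rw [hc]
      exact_mod_cast Finset.card_le_univ K
    have hsmall : c * (1 / (2 * (c + 1))) < 1 / 2 := by
      rw [mul_one_div, div_lt_iff₀ (by positivity)]
      linarith
    have h1 := herr K
    have h2 := herr K'
    rw [← hcast] at h1 h2
    have h3 := abs_le.1 h1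
    have h4 := abs_le.1 h2
    have h5 : (q : ℝ) * ∑ i ∈ K, w i ≤ (q : ℝ) * ∑ i ∈ K', w i :=
      mul_le_mul_of_nonneg_left hK (by positivity)
    have h6 : ((∑ i ∈ K, (round ((q : ℝ) * w i)).toNat : ℕ) : ℝ) <
        ((∑ i ∈ K', (round ((q : ℝ) * w i)).toNat : ℕ) : ℝ) + 1 := by
      linarith [h3.1, h4.2]
    have h7 : (∑ i ∈ K, (round ((q : ℝ) * w i)).toNat : ℕ) <
        (∑ i ∈ K', (round ((q : ℝ) * w i)).toNat : ℕ) + 1 := by
      exact_mod_cast h6
    exact Nat.lt_succ_iff.1 h7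

variable {V : Type u}

/-- No induced fork. -/
def ForkFree (G : SimpleGraph V) : Prop :=
  ¬ ∃ a b c d e : V, a ≠ c ∧ a ≠ d ∧ a ≠ e ∧ b ≠ d ∧ b ≠ e ∧ d ≠ e ∧
      G.Adj a b ∧ G.Adj b c ∧ G.Adj c d ∧ G.Adj c e ∧
      ¬ G.Adj a c ∧ ¬ G.Adj a d ∧ ¬ G.Adj a e ∧ ¬ G.Adj b d ∧ ¬ G.Adj b e ∧ ¬ G.Adj d e

/-- Perfect (finite or infinite): every induced subgraph all of whose finite cliques have at most
`k` vertices can be coloured with `k` colours. -/
def PerfectOn (G : SimpleGraph V) (A : Set V) : Prop :=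
  ∀ T : Set V, T ⊆ A → ∀ k : ℕ,
    (∀ K : Finset V, (↑K : Set V) ⊆ T → G.IsClique (↑K : Set V) → K.card ≤ k) →
      (G.induce T).Colorable k

theorem PerfectOn.mono {G : SimpleGraph V} {A B : Set V} (h : PerfectOn G A) (hBA : B ⊆ A) :
    PerfectOn G B := fun T hT k hk => h T (hT.trans hBA) k hk

theorem perfectOn_image {n : ℕ} {G : SimpleGraph V} (g : Fin n → V) (hg : Function.Injective g)
    {A' : Set (Fin n)} (h : H602PD.Perf (G.comap g) A') : PerfectOn G (g '' A') := by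
  classical
  intro T hT k hk
  obtain ⟨f, hf1, hf2⟩ := h (g ⁻¹' T) (by
    intro x hx
    obtain ⟨y, hy, hyx⟩ := hT hx
    rwa [hg hyx] at hy) k (by
    intro K hK hKc
    have h1 := hk (K.toFinset.map ⟨g, hg⟩) (by
      intro v hv
      simp only [Finset.coe_map, Set.coe_toFinset, Function.Embedding.coeFn_mk] at hv
      obtain ⟨x, hx, rfl⟩ := hv
      exact hK hx) (by
      intro a ha b hb hab
      simp only [Finset.coe_map, Set.coe_toFinset, Function.Embedding.coeFn_mk] at ha hb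
      obtain ⟨x, hx, rfl⟩ := ha
      obtain ⟨y, hy, rfl⟩ := hb
      exact hKc hx hy (fun h => hab (by rw [h])))
    rw [Finset.card_map, ← Set.ncard_eq_toFinset_card'] at h1
    exact h1)
  have hch : ∀ x : ↥T, ∃ y : Fin n, g y = x.1 := by
    intro x
    obtain ⟨y, -, hy⟩ := hT x.2
    exact ⟨y, hy⟩
  choose p hp using hch
  refine ⟨SimpleGraph.Coloring.mk (fun x => (⟨f (p x), hf1 (p x) (by
    show g (p x) ∈ T
    rw [hp]; exact x.2)⟩ : Fin k)) ?_⟩
  intro x y hxy h
  refine hf2 (p x) (by show g (p x) ∈ T; rw [hp]; exact x.2) (p y)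
    (by show g (p y) ∈ T; rw [hp]; exact y.2) ?_ (Fin.mk.inj h)
  show G.Adj (g (p x)) (g (p y))
  rw [hp, hp]
  exact hxy

theorem wt_eq {n : ℕ} (m : Fin n → ℕ) (K : Set (Fin n)) [DecidablePred (· ∈ K)] :
    H602PD.wt m K = ∑ i ∈ Finset.univ.filter (· ∈ K), m i := by
  unfold H602PD.wt
  rw [Finset.sum_filter]
  refine Finset.sum_congr rfl (fun i _ => ?_)
  by_cases h : i ∈ K
  · rw [Set.indicator_of_mem h, if_pos h]
  · rw [Set.indicator_of_notMem h, if_neg h]

theorem finite_case {G : SimpleGraph V} (hff : ForkFree G) (F : Finset V) (w : V → ℝ) (W : ℝ)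
    (hw : ∀ v ∈ F, 0 ≤ w v) (hW : 0 < W)
    (hb : ∀ K : Finset V, K ⊆ F → G.IsClique (↑K : Set V) → ∑ v ∈ K, w v ≤ W) :
    ∃ A : Set V, PerfectOn G A ∧
      ∀ K : Finset V, K ⊆ F → G.IsClique (↑K : Set V) → (∀ v ∈ K, v ∉ A) → ∑ v ∈ K, w v < W := by
  classical
  set F' : Finset V := F.filter (fun v => 0 < w v) with hF'
  have hsum : ∀ K : Finset V, K ⊆ F → ∑ v ∈ K, w v = ∑ v ∈ K.filter (fun v => 0 < w v), w v := by
    intro K hK
    rw [Finset.sum_filter]
    refine Finset.sum_congr rfl (fun v hv => ?_)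
    by_cases h : 0 < w v
    · rw [if_pos h]
    · rw [if_neg h]
      exact le_antisymm (not_lt.1 h) (hw v (hK hv))
  rcases Finset.eq_empty_or_nonempty F' with hemp | hne
  · refine ⟨∅, ?_, ?_⟩
    · intro T hT k _
      have hT0 : T = ∅ := Set.subset_empty_iff.1 hT
      subst hT0
      exact ⟨SimpleGraph.Coloring.mk (fun x => (x.2 : False).elim) (by
        intro x; exact (x.2 : False).elim)⟩
    · intro K hK _ _
      rw [hsum K hK]
      have : K.filter (fun v => 0 < w v) ⊆ F' := Finset.filter_subset_filter _ hK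
      rw [hemp, Finset.subset_empty] at this
      rw [this]
      simpa using hW
  set n := F'.card with hn
  set e : Fin n ≃ ↥F' := F'.equivFin.symm with he
  set g : Fin n → V := fun i => (e i).1 with hgdef
  have hg : Function.Injective g := fun i j hij => e.injective (Subtype.ext hij)
  have hgF : ∀ i, g i ∈ F' := fun i => (e i).2
  have hgsurj : ∀ v ∈ F', ∃ i, g i = v := fun v hv => ⟨e.symm ⟨v, hv⟩, by simp [hgdef]⟩
  have hff' : H602PD.ForkFree (G.comap g) := by
    intro a b c d f h1 h2 h3 h4 h5 h6 h7 h8 h9 h10 h11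
    have hne' : ∀ x y : Fin n, x ≠ y → g x ≠ g y := fun x y h h' => h (hg h')
    refine hff ⟨g a, g b, g c, g d, g f, ?_, ?_, ?_, ?_, ?_, ?_, h1, h2, h3, h4, h5, h6, h7, h8,
      h9, h10⟩
    · intro h
      have h1' : G.Adj (g a) (g b) := h1
      have h3' : G.Adj (g c) (g d) := h3
      have h6' : ¬ G.Adj (g a) (g d) := h6
      rw [h] at h6'
      exact h6' h3'
    · intro h
      have h3' : G.Adj (g c) (g d) := h3
      have h5' : ¬ G.Adj (g a) (g c) := h5
      rw [h] at h5'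
      exact h5' h3'.symm
    · intro h
      have h4' : G.Adj (g c) (g f) := h4
      have h5' : ¬ G.Adj (g a) (g c) := h5
      rw [h] at h5'
      exact h5' h4'.symm
    · intro h
      have h1' : G.Adj (g a) (g b) := h1
      have h6' : ¬ G.Adj (g a) (g d) := h6
      rw [h] at h1'
      exact h6' h1'
    · intro h
      have h1' : G.Adj (g a) (g b) := h1
      have h7' : ¬ G.Adj (g a) (g f) := h7
      rw [h] at h1'
      exact h7' h1'
    · exact hne' d f h11
  have hwpos : ∀ i : Fin n, 0 < w (g i) := fun i => (Finset.mem_filter.1 (hgF i)).2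
  obtain ⟨m, hm1, hm2⟩ := intw (fun i : Fin n => w (g i)) hwpos
  have hn0 : Nonempty (Fin n) := by
    obtain ⟨v, hv⟩ := hne
    obtain ⟨i, -⟩ := hgsurj v hv
    exact ⟨i⟩
  obtain ⟨A', -, hA', hh⟩ := H602PD.main_good n (Fin n) (Fintype.card_fin n) hn0 (G.comap g)
    hff' m hm1
  refine ⟨g '' A', perfectOn_image g hg hA', ?_⟩
  intro K hK hKc hKA
  by_contra hcon
  rw [not_lt] at hcon
  rw [hsum K hK] at hcon
  set K1 := K.filter (fun v => 0 < w v) with hK1
  have hK1F : K1 ⊆ F' := Finset.filter_subset_filter _ hK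
  have himg : ∀ L : Finset (Fin n), ∑ v ∈ L.map ⟨g, hg⟩, w v = ∑ i ∈ L, w (g i) := by
    intro L
    rw [Finset.sum_map]
    rfl
  set K2 : Set (Fin n) := {i | g i ∈ K1} with hK2
  have hK2map : (Finset.univ.filter (· ∈ K2)).map ⟨g, hg⟩ = K1 := by
    ext v
    simp only [Finset.mem_map, Finset.mem_filter, Finset.mem_univ, true_and,
      Function.Embedding.coeFn_mk]
    constructor
    · rintro ⟨i, hi, rfl⟩
      exact hi
    · intro hv
      obtain ⟨i, rfl⟩ := hgsurj v (hK1F hv)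
      exact ⟨i, hv, rfl⟩
  have hheavy : H602PD.Heavy (G.comap g) m Set.univ K2 := by
    refine ⟨Set.subset_univ _, ?_, ?_⟩
    · intro x hx y hy hxy
      have hx' : g x ∈ K1 := hx
      have hy' : g y ∈ K1 := hy
      exact hKc (Finset.mem_coe.2 (Finset.mem_filter.1 hx').1)
        (Finset.mem_coe.2 (Finset.mem_filter.1 hy').1) (fun h => hxy (hg h))
    · intro K' _ hK'
      rw [wt_eq m K', wt_eq m K2]
      apply hm2
      have h1 : ∑ i ∈ Finset.univ.filter (· ∈ K'), w (g i) ≤ W := by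
        rw [← himg]
        apply hb
        · intro v hv
          simp only [Finset.mem_map, Finset.mem_filter, Finset.mem_univ, true_and,
            Function.Embedding.coeFn_mk] at hv
          obtain ⟨i, -, rfl⟩ := hv
          exact (Finset.mem_filter.1 (hgF i)).1
        · intro a ha b hb hab
          simp only [Finset.coe_map, Finset.coe_filter, Finset.mem_univ, true_and,
            Function.Embedding.coeFn_mk] at ha hb
          obtain ⟨x, hx, rfl⟩ := ha
          obtain ⟨y, hy, rfl⟩ := hb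
          exact hK' hx hy (fun h => hab (by rw [h]))
      have h2 : ∑ i ∈ Finset.univ.filter (· ∈ K2), w (g i) = ∑ v ∈ K1, w v := by
        rw [← himg, hK2map]
      exact h1.trans (hcon.trans h2.ge)
  obtain ⟨i, hi1, hi2⟩ := hh K2 hheavy
  have hi1' : g i ∈ K1 := hi1
  exact hKA (g i) (Finset.mem_filter.1 hi1').1 ⟨i, hi2, rfl⟩

end Pool.Agent.KS6_31.FK
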