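import Mathlib
import Pool.Agent.KS6_31.FK.FK1

set_option autoImplicit false

open Filter Topology

namespace Pool.Agent.KS6_31.FK

universe u

variable {V : Type u}

/-- De Bruijn–Erdős. -/
theorem colorable_of_finite {G : SimpleGraph V} {T : Set V} {k : ℕ}
    (h : ∀ F : Finset V, (↑F : Set V) ⊆ T → (G.induce (↑F : Set V)).Colorable k) :
    (G.induce T).Colorable k := by
  classical
  refine SimpleGraph.nonempty_hom_of_forall_finite_subgraph_hom (fun G' hG' => ?_)
  set F : Finset V := (hG'.image Subtype.val).toFinset with hF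
  have hFT : (↑F : Set V) ⊆ T := by
    intro v hv
    rw [hF, Set.Finite.coe_toFinset] at hv
    obtain ⟨x, -, rfl⟩ := hv
    exact x.2
  have c : (G.induce (↑F : Set V)).Coloring (Fin k) := (h F hFT).some
  have hmem : ∀ x : G'.verts, x.1.1 ∈ (↑F : Set V) := by
    intro x
    rw [hF, Set.Finite.coe_toFinset]
    exact ⟨x.1, x.2, rfl⟩
  refine ⟨fun x => c ⟨x.1.1, hmem x⟩, ?_⟩
  intro x y hxy
  have h1 : (G.induce T).Adj x.1 y.1 := G'.adj_sub hxy
  exact c.map_rel (show (G.induce (↑F : Set V)).Adj ⟨x.1.1, hmem x⟩ ⟨y.1.1, hmem y⟩ from h1)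

theorem compactness {G : SimpleGraph V} (hff : ForkFree G) (S : Set V) (w : V → ℝ) (W : ℝ)
    (hw : ∀ v ∈ S, 0 ≤ w v) (hW : 0 < W)
    (hb : ∀ K : Finset V, (↑K : Set V) ⊆ S → G.IsClique (↑K : Set V) → ∑ v ∈ K, w v ≤ W) :
    ∃ A : Set V, A ⊆ S ∧ PerfectOn G A ∧
      ∀ K : Finset V, (↑K : Set V) ⊆ S \ A → G.IsClique (↑K : Set V) → ∑ v ∈ K, w v < W := by
  classical
  set ι := {F : Finset V // (↑F : Set V) ⊆ S} with hι
  set C : ι → Set (V → Bool) := fun F => {a | PerfectOn G {v | v ∈ F.1 ∧ a v = true} ∧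
    ∀ K : Finset V, K ⊆ F.1 → G.IsClique (↑K : Set V) → (∀ v ∈ K, a v = false) →
      ∑ v ∈ K, w v < W} with hC
  haveI : Nonempty ι := ⟨⟨∅, by simp⟩⟩
  have hanti : ∀ F F' : ι, F.1 ⊆ F'.1 → C F' ⊆ C F := by
    intro F F' hFF a ha
    refine ⟨ha.1.mono (fun v hv => ⟨hFF hv.1, hv.2⟩), fun K hK => ha.2 K (hK.trans hFF)⟩
  have hdir : Directed (· ⊇ ·) C := by
    intro F F'
    refine ⟨⟨F.1 ∪ F'.1, ?_⟩, ?_, ?_⟩
    · rw [Finset.coe_union]
      exact Set.union_subset F.2 F'.2
    · exact hanti _ _ Finset.subset_union_left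
    · exact hanti _ _ Finset.subset_union_right
  have hne : ∀ F, (C F).Nonempty := by
    intro F
    obtain ⟨A, hA1, hA2⟩ := finite_case hff F.1 w W (fun v hv => hw v (F.2 hv)) hW
      (fun K hK hKc => hb K (fun v hv => F.2 (hK hv)) hKc)
    refine ⟨fun v => decide (v ∈ A), ?_, ?_⟩
    · exact hA1.mono (fun v hv => by simpa using hv.2)
    · intro K hK hKc hKA
      exact hA2 K hK hKc (fun v hv => by simpa using hKA v hv)
  have hclosed : ∀ F, IsClosed (C F) := by
    intro F
    have h1 : ∃ D : Set (↥F.1 → Bool), C F = (fun (a : V → Bool) (x : ↥F.1) => a x.1) ⁻¹' D := by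
      refine ⟨(fun (a : V → Bool) (x : ↥F.1) => a x.1) '' (C F), ?_⟩
      refine Set.Subset.antisymm (Set.subset_preimage_image _ _) ?_
      rintro a ⟨b, hb1, hb2⟩
      have hab : ∀ v ∈ F.1, b v = a v := fun v hv => congrFun hb2 ⟨v, hv⟩
      refine ⟨?_, ?_⟩
      · refine hb1.1.mono ?_
        rintro v ⟨hv1, hv2⟩
        exact ⟨hv1, (hab v hv1).trans hv2⟩
      · intro K hK hKc hKa
        exact hb1.2 K hK hKc (fun v hv => (hab v (hK hv)).trans (hKa v hv))
    obtain ⟨D, hD⟩ := h1
    rw [hD]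
    refine IsClosed.preimage ?_ (Set.toFinite D).isClosed
    exact continuous_pi (fun x => continuous_apply x.1)
  obtain ⟨a, ha⟩ := IsCompact.nonempty_iInter_of_directed_nonempty_isCompact_isClosed C hdir hne
    (fun F => (hclosed F).isCompact) hclosed
  rw [Set.mem_iInter] at ha
  refine ⟨{v | v ∈ S ∧ a v = true}, fun v hv => hv.1, ?_, ?_⟩
  · intro T hT k hk
    refine colorable_of_finite (fun F hF => ?_)
    have hFS : (↑F : Set V) ⊆ S := fun v hv => (hT (hF hv)).1
    refine (ha ⟨F, hFS⟩).1 (↑F : Set V) (fun v hv => ⟨hv, (hT (hF hv)).2⟩) k ?_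
    intro K hK hKc
    exact hk K (hK.trans hF) hKc
  · intro K hK hKc
    have hKS : (↑K : Set V) ⊆ S := fun v hv => (hK hv).1
    refine (ha ⟨K, hKS⟩).2 K (Finset.Subset.refl K) hKc (fun v hv => ?_)
    have h1 := (hK (Finset.mem_coe.2 hv)).2
    by_contra hcon
    exact h1 ⟨(hK (Finset.mem_coe.2 hv)).1, by simpa using hcon⟩

/-- The hierarchy of perfect classes. -/
theorem hierarchy {G : SimpleGraph V} (hff : ForkFree G) : ∀ (k : ℕ) (S : Set V),
    (∀ K : Finset V, (↑K : Set V) ⊆ S → G.IsClique (↑K : Set V) → K.card ≤ k) →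
    ∃ c : V → ℕ, (∀ v ∈ S, c v < k) ∧ ∀ i : ℕ, PerfectOn G {v | v ∈ S ∧ c v = i} ∧
      ∀ K : Finset V, (↑K : Set V) ⊆ {v | v ∈ S ∧ c v < i} → G.IsClique (↑K : Set V) →
        K.card ≤ i := by
  classical
  intro k
  induction k with
  | zero =>
    intro S hS
    have hS0 : ∀ v, v ∉ S := by
      intro v hv
      have := hS {v} (by simpa using hv) (by simp)
      simp at this
    refine ⟨fun _ => 0, fun v hv => (hS0 v hv).elim, fun i => ⟨?_, ?_⟩⟩
    · intro T hT k hk
      refine ⟨SimpleGraph.Coloring.mk (fun x => (hS0 _ (hT x.2).1).elim) ?_⟩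
      intro x
      exact (hS0 _ (hT x.2).1).elim
    · intro K hK _
      have : K = ∅ := by
        apply Finset.eq_empty_of_forall_notMem
        intro v hv
        exact hS0 v (hK (Finset.mem_coe.2 hv)).1
      rw [this]
      simp
  | succ k ih =>
    intro S hS
    obtain ⟨A, hAS, hA, hB⟩ := compactness hff S (fun _ => 1) ((k : ℝ) + 1) (fun _ _ => zero_le_one)
      (by positivity) (by
        intro K hK hKc
        have := hS K hK hKc
        rw [Finset.sum_const, nsmul_eq_mul, mul_one]
        exact_mod_cast this)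
    obtain ⟨c, hc1, hc2⟩ := ih (S \ A) (by
      intro K hK hKc
      have := hB K hK hKc
      rw [Finset.sum_const, nsmul_eq_mul, mul_one] at this
      have h2 : K.card < k + 1 := by exact_mod_cast this
      omega)
    refine ⟨fun v => if v ∈ A then k else c v, ?_, ?_⟩
    · intro v hv
      by_cases hvA : v ∈ A
      · simp [hvA]
      · simp only [hvA, if_false]
        have := hc1 v ⟨hv, hvA⟩
        omega
    · intro i
      refine ⟨?_, ?_⟩
      · by_cases hik : i = k
        · refine hA.mono ?_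
          rintro v ⟨hv, hcv⟩
          by_contra hvA
          simp only [hvA, if_false] at hcv
          have := hc1 v ⟨hv, hvA⟩
          omega
        · refine (hc2 i).1.mono ?_
          rintro v ⟨hv, hcv⟩
          by_cases hvA : v ∈ A
          · simp only [hvA, if_true] at hcv
            exact (hik hcv.symm).elim
          · simp only [hvA, if_false] at hcv
            exact ⟨⟨hv, hvA⟩, hcv⟩
      · intro K hK hKc
        by_cases hik : i ≤ k
        · refine (hc2 i).2 K (fun v hv => ?_) hKc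
          obtain ⟨hvS, hcv⟩ := hK hv
          by_cases hvA : v ∈ A
          · simp only [hvA, if_true] at hcv
            omega
          · simp only [hvA, if_false] at hcv
            exact ⟨⟨hvS, hvA⟩, hcv⟩
        · have := hS K (fun v hv => (hK hv).1) hKc
          omega

theorem colorable_union {G : SimpleGraph V} {S A B : Set V} {a b : ℕ} (hS : S ⊆ A ∪ B)
    (hA : (G.induce A).Colorable a) (hB : (G.induce B).Colorable b) :
    (G.induce S).Colorable (a + b) := by
  classical
  obtain ⟨f⟩ := hA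
  obtain ⟨g⟩ := hB
  have hB' : ∀ x : ↥S, x.1 ∉ A → x.1 ∈ B := fun x hx => (hS x.2).resolve_left hx
  refine ⟨SimpleGraph.Coloring.mk (fun x : ↥S => if h : x.1 ∈ A then Fin.castAdd b (f ⟨x.1, h⟩)
    else Fin.natAdd a (g ⟨x.1, hB' x h⟩)) ?_⟩
  intro x y hxy hcol
  have hadj : G.Adj x.1 y.1 := hxy
  by_cases hx : x.1 ∈ A
  · by_cases hy : y.1 ∈ A
    · simp only [hx, hy, dite_true] at hcol
      have h1 := Fin.castAdd_injective a b hcol
      exact f.valid (show (G.induce A).Adj ⟨x.1, hx⟩ ⟨y.1, hy⟩ from hadj) h1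
    · simp only [hx, hy, dite_true, dite_false] at hcol
      have h1 := congrArg Fin.val hcol
      simp only [Fin.val_castAdd, Fin.val_natAdd] at h1
      have h2 := (f ⟨x.1, hx⟩).2
      omega
  · by_cases hy : y.1 ∈ A
    · simp only [hx, hy, dite_true, dite_false] at hcol
      have h1 := congrArg Fin.val hcol
      simp only [Fin.val_castAdd, Fin.val_natAdd] at h1
      have h2 := (f ⟨y.1, hy⟩).2
      omega
    · simp only [hx, hy, dite_false] at hcol
      have h1 := Fin.natAdd_injective b a hcol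
      exact g.valid (show (G.induce B).Adj ⟨x.1, hB' x hx⟩ ⟨y.1, hB' y hy⟩ from hadj) h1

theorem quadratic {G : SimpleGraph V} (hff : ForkFree G) : ∀ (k : ℕ) (S : Set V),
    (∀ K : Finset V, (↑K : Set V) ⊆ S → G.IsClique (↑K : Set V) → K.card ≤ k) →
    (G.induce S).Colorable ((k + 1).choose 2) := by
  classical
  intro k
  induction k with
  | zero =>
    intro S hS
    have hS0 : ∀ v, v ∉ S := by
      intro v hv
      have := hS {v} (by simpa using hv) (by simp)
      simp at this
    refine ⟨SimpleGraph.Coloring.mk (fun x => (hS0 _ x.2).elim) ?_⟩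
    intro x
    exact (hS0 _ x.2).elim
  | succ k ih =>
    intro S hS
    obtain ⟨A, hAS, hA, hB⟩ := compactness hff S (fun _ => 1) ((k : ℝ) + 1) (fun _ _ => zero_le_one)
      (by positivity) (by
        intro K hK hKc
        have := hS K hK hKc
        rw [Finset.sum_const, nsmul_eq_mul, mul_one]
        exact_mod_cast this)
    have h1 := ih (S \ A) (by
      intro K hK hKc
      have := hB K hK hKc
      rw [Finset.sum_const, nsmul_eq_mul, mul_one] at this
      have h2 : K.card < k + 1 := by exact_mod_cast this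
      omega)
    have h2 := hA A (le_refl _) (k + 1) (fun K hK hKc => hS K (hK.trans hAS) hKc)
    have h3 := colorable_union (S := S) (A := A) (B := S \ A) (by
      intro v hv
      by_cases hvA : v ∈ A
      · exact Or.inl hvA
      · exact Or.inr ⟨hv, hvA⟩) h2 h1
    have h4 : (k + 1 + 1).choose 2 = (k + 1) + (k + 1).choose 2 := by
      rw [Nat.choose_succ_succ' (k + 1) 1]
      simp
    rw [h4]
    exact h3

end Pool.Agent.KS6_31.FK
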